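import Mathlib
import Pool.Agent.H84.VJ.G

/-!
# Vojta's inequality for the algebraic points of Fermat intersections, off the special hyperplanes

Let `k` be a number field, `a_0, …, a_{q-1}` linear forms in `n + 1` variables over `k`, any `n + 1`
of them linearly independent, `q ≥ n + 2`, and `m ≥ 1`. The points `(y_0 : … : y_{q-1})` such that
`(y_0 ^ m : … : y_{q-1} ^ m) = (a_0(x) : … : a_{q-1}(x))` for some `x` in `ℙ^n` form a smooth complete
intersection `X_m` of dimension `n` of `q - n - 1` hypersurfaces of degree `m` in `ℙ^(q-1)`. Let `D` be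
the divisor `y_0 ⋯ y_{q-1} = 0` on `X_m`; it has normal crossings.
`h_K(P) = (m (q - n - 1) - q) h(P)` and `m h(P) = h(x) + O(1)`.

We consider all points `P` of all `X_m` above the `k`-rational points `x` of `ℙ^n`; their degree over
`k` is at most `m ^ (q-1)`. Vojta's inequality with the term `ε m h(P)` is
`(θ m - q) h(P) + ∑_{ν ∈ S} λ_D(P, ν) ≤ d_k(P) + c` for `θ = q - n - 1 - ε`. We prove it for all `x` off
finitely many hyperplanes, outside a set which is much smaller than for the points on these hyperplanes,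
for all `m` at once.

The special hyperplanes are the joins of two strata of the arrangement: for disjoint non-empty sets `A`
and `I` of indices with `n + 2` elements together, of the linear subspaces `a_i = 0`, `i ∈ A`, and
`a_i = 0`, `i ∈ I`. Let `share j` be the proportion of the sets of `n + 2 - j` of the `q` indices which are
disjoint from `j` given indices. The exponent of the number of the exceptional `x` is `α θ + β q + δ` for all
`α, β ≥ 0` with `1 - share j ≤ α + β j`, `1 ≤ j ≤ n`; for instance `θ (1 - s) + δ` with `s = min share j`.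

The proof combines the count of the points off the special hyperplanes with a small truncated counting
function (`Pool.Agent.H84.VJ.off_spec`) with the starting files on `FermatProximity`: the truncated counting
function is at most the logarithmic discriminant of `P` plus `q h(P)` minus the proximity function.
-/

set_option autoImplicit false

namespace Pool.Agent.H84.Old.FermatOffSpecialHyperplanes

open NumberField IsDedekindDomain LinearAlgebra.Projectivization

/-- The value of the linear form with coefficients `a` at `x`. -/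
def lin {k : Type} [Field k] {n : ℕ} (a x : Fin (n + 1) → k) : k := ∑ j, a j * x j

/-- The logarithmic height, relative to `k`, of the point with homogeneous coordinates `y` in the
extension `L` of `k`. -/
noncomputable def height (k : Type) {L : Type} [Field k] [NumberField k] [Field L] [NumberField L]
    [Algebra k L] {q : ℕ} (y : Fin q → L) : ℝ := Height.logHeight y / Module.finrank k L

/-- The logarithmic discriminant `log |disc L| / [L : k] - log |disc k|`. -/
noncomputable def logDisc (k L : Type) [Field k] [NumberField k] [Field L] [NumberField L]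
    [Algebra k L] : ℝ :=
  Real.log |(discr L : ℝ)| / Module.finrank k L - Real.log |(discr k : ℝ)|

/-- The local Weil function `∑ i, log (max_j |y_j| / |y_i|)` of the divisor `D`, for an absolute
value. -/
noncomputable def weil {L : Type} [Field L] {q : ℕ} (f : AbsoluteValue L ℝ) (y : Fin q → L) : ℝ :=
  ∑ i, Real.log ((⨆ j, f (y j)) / f (y i))

/-- The proximity function `∑_{ν ∈ S} λ_D(P, ν)`, relative to `k`, where `S` consists of the
archimedean places and of the primes in the finite set `S`: the sum of the local Weil functions over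
the infinite places `w` of `L` (with the factor `[L_w : ℝ]`) and over the primes of `L` above the
primes in `S` (with the absolute value `N(w) ^ (- ord_w)`), divided by `[L : k]`. -/
noncomputable def proximity {k L : Type} [Field k] [NumberField k] [Field L] [NumberField L]
    [Algebra k L] {q : ℕ} (S : Finset (HeightOneSpectrum (𝓞 k))) (y : Fin q → L) : ℝ :=
  (∑ w : InfinitePlace L, (w.mult : ℝ) * weil w.1 y +
    ∑ᶠ w ∈ {w : HeightOneSpectrum (𝓞 L) | ∃ v ∈ S, w.asIdeal.LiesOver v.asIdeal},
      weil (FinitePlace.mk w).1 y) / Module.finrank k L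

/-- For some `m ≥ 1`, there are a number field `L` containing `k` and a point
`P = (y_0 : … : y_{q-1})` over `L` with `(y_i ^ m) = t v`, `t ≠ 0`, which violates
`(θ m - q) h(P) + ∑_{ν ∈ S} λ_D(P, ν) ≤ d_k(L) + c`. -/
def Violates {k : Type} [Field k] [NumberField k] {q : ℕ} (S : Finset (HeightOneSpectrum (𝓞 k)))
    (θ c : ℝ) (v : Fin q → k) : Prop :=
  ∃ (m : ℕ) (L : Type) (_ : Field L) (_ : NumberField L) (_ : Algebra k L) (y : Fin q → L) (t : L),
    1 ≤ m ∧ t ≠ 0 ∧ (∀ i, y i ^ m = t * algebraMap k L (v i)) ∧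
      logDisc k L + c < (θ * m - q) * height k y + proximity S y

/-- The `k`-rational points `x` of `ℙ^n` of height at most `B` off the hyperplanes `a_i = 0` above
which some point of some `X_m` violates the inequality. -/
def exceptional {k : Type} [Field k] [NumberField k] {n q : ℕ}
    (S : Finset (HeightOneSpectrum (𝓞 k))) (a : Fin q → Fin (n + 1) → k) (θ c B : ℝ) :
    Set (ℙ k (Fin (n + 1) → k)) :=
  {x | (∀ i, lin (a i) x.rep ≠ 0) ∧ x.mulHeight ≤ B ∧ Violates S θ c fun i => lin (a i) x.rep}

/-- The points on the special hyperplanes: for disjoint non-empty sets `A`, `I` of indices with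
`n + 2` elements together, the points on a line which joins a point `y` on all hyperplanes with index
in `A` to a point `z` on all hyperplanes with index in `I`. -/
def SpecialHyperplanes {k : Type} [Field k] {n q : ℕ} (a : Fin q → Fin (n + 1) → k) :
    Set (ℙ k (Fin (n + 1) → k)) :=
  {x | ∃ (A I : Finset (Fin q)) (y z : Fin (n + 1) → k), A.Nonempty ∧ I.Nonempty ∧ Disjoint A I ∧
    A.card + I.card = n + 2 ∧ x.rep = y + z ∧ (∀ i ∈ A, lin (a i) y = 0) ∧ ∀ i ∈ I, lin (a i) z = 0}

/-- The proportion, among the sets of `n + 2 - j` of the `q` indices, of those which are disjoint from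
`j` given indices. -/
noncomputable def share (n q j : ℕ) : ℝ :=
  ((q - j).choose (n + 2 - j) : ℝ) / (q.choose (n + 2 - j) : ℝ)

lemma Violates.prox {k : Type} [Field k] [NumberField k] {q : ℕ}
    {S : Finset (HeightOneSpectrum (𝓞 k))} {θ c : ℝ} {v : Fin q → k} (h : Violates S θ c v) :
    ∃ (m : ℕ) (L : Type) (_ : Field L) (_ : NumberField L) (_ : Algebra k L) (y : Fin q → L) (t : L),
      m ≠ 0 ∧ t ≠ 0 ∧ (∀ i, y i ^ m = t * algebraMap k L (v i)) ∧
      Pool.Agent.TH905.VF.ld k L + c <
        (θ * m - q) * Pool.Agent.TH905.VF.ht k y + Pool.Agent.TH905.VF.prox S y := by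
  obtain ⟨m, L, i1, i2, i3, y, t, hm, ht, hy, hvi⟩ := h
  exact ⟨m, L, i1, i2, i3, y, t, by omega, ht, hy, hvi⟩

/-- **Vojta's inequality for the algebraic points of Fermat intersections off the special
hyperplanes.** Let `k` be a number field, `S` a finite set of primes of `k`, `n ≥ 1`, and let
`a_0, …, a_{q-1}` be `q ≥ n + 2` linear forms in `n + 1` variables over `k`, any `n + 1` of them
linearly independent. The special hyperplanes are finitely many hyperplanes. Let `α, β ≥ 0` and
`1 - share n q j ≤ α + β j` for `j = 1, …, n`. Let `θ ≥ 0`, `c` real and `δ > 0`. For all but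
`O(B ^ (α θ + β q + δ))` points `x` of `ℙ^n(k)` of height at most `B` off the hyperplanes `a_i = 0` and
off the special hyperplanes, ALL points `P` of ALL `X_m`, `m ≥ 1`, above `x` satisfy
`(θ m - q) h(P) + ∑_{ν ∈ S ∪ S_∞} λ_D(P, ν) ≤ d_k(P) + c`. In particular this is so with the exponent
`θ (1 - s) + δ`, where `s > 0` is the least of the `share n q j`. For `θ = q - n - 1 - ε` it is Vojta's
inequality with the term `ε m h(P)`. -/
theorem result (k : Type) [Field k] [NumberField k] (S : Finset (HeightOneSpectrum (𝓞 k)))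
    (n q : ℕ) (hn : 1 ≤ n) (hq : n + 2 ≤ q) (a : Fin q → Fin (n + 1) → k)
    (ha : ∀ I : Finset (Fin q), I.card = n + 1 → LinearIndependent k (fun i : I => a i)) :
    (∃ F : Finset (Fin (n + 1) → k), (∀ b ∈ F, b ≠ 0) ∧
      ∀ x ∈ SpecialHyperplanes a, ∃ b ∈ F, lin b x.rep = 0) ∧
    (∀ θ c δ α β : ℝ, 0 ≤ θ → 0 < δ → 0 ≤ α → 0 ≤ β →
      (∀ j : ℕ, 1 ≤ j → j ≤ n → 1 - share n q j ≤ α + β * j) →
      ∃ M : ℝ, ∀ B : ℝ, 1 ≤ B → (exceptional S a θ c B \ SpecialHyperplanes a).Finite ∧
        ((exceptional S a θ c B \ SpecialHyperplanes a).ncard : ℝ) ≤ M * B ^ (α * θ + β * q + δ)) ∧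
    ∃ j₀ : ℕ, 1 ≤ j₀ ∧ j₀ ≤ n ∧ 0 < share n q j₀ ∧ (∀ j, 1 ≤ j → j ≤ n → share n q j₀ ≤ share n q j) ∧
      ∀ θ c δ : ℝ, 0 ≤ θ → 0 < δ → ∃ M : ℝ, ∀ B : ℝ, 1 ≤ B →
        ((exceptional S a θ c B \ SpecialHyperplanes a).ncard : ℝ) ≤
          M * B ^ (θ * (1 - share n q j₀) + δ) := by
  have hoff : ∀ θ c δ α β : ℝ, 0 ≤ θ → 0 < δ → 0 ≤ α → 0 ≤ β →
      (∀ j : ℕ, 1 ≤ j → j ≤ n → 1 - share n q j ≤ α + β * j) →
      ∃ M : ℝ, ∀ B : ℝ, 1 ≤ B → (exceptional S a θ c B \ SpecialHyperplanes a).Finite ∧
        ((exceptional S a θ c B \ SpecialHyperplanes a).ncard : ℝ) ≤ M * B ^ (α * θ + β * q + δ) := by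
    intro θ c δ α β hθ hδ hα hβ hg
    obtain ⟨M, hM⟩ := Pool.Agent.H84.VJ.off_main k n q hq a ha S θ c α β δ hθ hα hβ hg hδ
    refine ⟨M, fun B hB => ?_⟩
    obtain ⟨h1, h2⟩ := hM B hB
    have hsub : exceptional S a θ c B \ SpecialHyperplanes a ⊆ Pool.Agent.H84.VJ.E3 S a θ c B := by
      rintro x ⟨⟨hl, hB', hv⟩, hs⟩
      exact ⟨hl, hB', hv.prox, hs⟩
    refine ⟨h1.subset hsub, le_trans ?_ h2⟩
    exact_mod_cast Set.ncard_le_ncard hsub h1
  refine ⟨?_, hoff, ?_⟩
  · obtain ⟨F, hF1, hF2⟩ := Pool.Agent.H84.VJ.spec_proper (K := k) (a := a) ha (by omega)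
    exact ⟨F, hF1, fun P hP => hF2 P.rep hP⟩
  · obtain ⟨j₀, hj, hmin⟩ := Finset.exists_min_image (Finset.Icc 1 n) (fun j => share n q j)
      ⟨1, by simp [hn]⟩
    obtain ⟨hj1, hj2⟩ := Finset.mem_Icc.1 hj
    have h1 : 0 < ((q - j₀).choose (n + 2 - j₀) : ℝ) := by
      exact_mod_cast Nat.choose_pos (by omega)
    have h2 : 0 < (q.choose (n + 2 - j₀) : ℝ) := by
      exact_mod_cast Nat.choose_pos (by omega)
    have h3 : ((q - j₀).choose (n + 2 - j₀) : ℝ) ≤ (q.choose (n + 2 - j₀) : ℝ) := by
      exact_mod_cast Nat.choose_le_choose _ (Nat.sub_le q j₀)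
    have hs1 : share n q j₀ ≤ 1 := by
      unfold share
      rw [div_le_one h2]
      exact h3
    refine ⟨j₀, hj1, hj2, div_pos h1 h2, fun j g1 g2 => hmin j (Finset.mem_Icc.2 ⟨g1, g2⟩),
      fun θ c δ hθ hδ => ?_⟩
    obtain ⟨M, hM⟩ := hoff θ c δ (1 - share n q j₀) 0 hθ hδ (by linarith) le_rfl (fun j g1 g2 => by
      have := hmin j (Finset.mem_Icc.2 ⟨g1, g2⟩)
      linarith)
    refine ⟨M, fun B hB => ?_⟩
    have := (hM B hB).2
    rwa [show (1 - share n q j₀) * θ + 0 * (q : ℝ) + δ = θ * (1 - share n q j₀) + δ by ring] at this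

end Pool.Agent.H84.Old.FermatOffSpecialHyperplanes
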